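import Pool.Agent.G02.Stmts

/-!
# Squad G02, rows EXC, EXS: primes for the recipes C and S
-/

set_option autoImplicit false

namespace Pool.Agent.G02.H37

open Pool.Agent.NJ NumberTheorySymbols

theorem exc (an : ANStmt) : ExcStmt := by
  intro N
  obtain ⟨p, q, l, hp, hq, hl, hNp, -, -, h1, h2, h3⟩ := an (-1) 8 3 7 8
    ⟨-1, 0, by norm_num⟩ (by norm_num) (by norm_num) (by norm_num) (by norm_num)
    ⟨3, -1, by norm_num⟩ ⟨-1, 1, by norm_num⟩ ⟨-3, 20, by norm_num⟩ (Or.inr (by norm_num)) N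
  refine ⟨p, q, l, hNp, ⟨hp, hq, hl, ?_, ?_, ?_⟩⟩
  · have h : (p : ℤ) % 8 = 3 % 8 := h1
    omega
  · have h : (q : ℤ) % 8 = 7 % 8 := h2
    omega
  · omega

theorem cop_of (x : ℤ) (K : ℕ)
    (h : ∀ l : ℕ, l.Prime → (l : ℤ) ∣ x → (l : ℤ) ∣ (K : ℤ) → False) : IsCoprime x (K : ℤ) := by
  rw [Int.isCoprime_iff_gcd_eq_one]
  by_contra hne
  obtain ⟨l, hl, hlg⟩ := Nat.exists_prime_and_dvd hne
  exact h l hl ((Int.natCast_dvd_natCast.2 hlg).trans (Int.gcd_dvd_left ..))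
    ((Int.natCast_dvd_natCast.2 hlg).trans (Int.gcd_dvd_right ..))

theorem leg_congr (p : ℕ) [Fact p.Prime] {a b : ℤ} (h : (p : ℤ) ∣ b - a) :
    legendreSym p a = legendreSym p b := by
  rw [legendreSym.mod p a, legendreSym.mod p b, (Int.modEq_iff_dvd.2 h : a ≡ b [ZMOD p])]

theorem leg_zero (l : ℕ) [Fact l.Prime] {a : ℤ} (h : (l : ℤ) ∣ a) : legendreSym l a = 0 := by
  rw [legendreSym.eq_zero_iff, ZMod.intCast_zmod_eq_zero_iff_dvd]
  exact h

theorem leg_sq (l : ℕ) [Fact l.Prime] {x : ℤ} (h : ¬ (l : ℤ) ∣ x) :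
    legendreSym l (x * x) = 1 := by
  have h' : ((x : ℤ) : ZMod l) ≠ 0 := by
    rw [Ne, ZMod.intCast_zmod_eq_zero_iff_dvd]
    exact h
  have := legendreSym.sq_one l h'
  rw [sq] at this
  rw [legendreSym.mul]
  exact this

/-- the primes for recipe S, with a prescribed Jacobi symbol -/
theorem gen (res : ResStmt) (an : ANStmt) (k : ℤ) (K : ℕ) (hk : k.natAbs = K)
    (sqf : Squarefree k) (ho : Odd K) (m : ℕ) (hm : m = 3 ∨ m = 5) (s : ℤ)
    (hs : (s = 1 ∨ s = -1) ∧ (K = 1 → s = 1)) (N : ℕ) :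
    ∃ p q r : ℕ, N < p ∧ RS m k p q r ∧ J((q : ℤ) | K) = s := by
  have hK0 : K ≠ 0 := by
    rintro rfl
    simp at ho
  have hKpos : 0 < K := Nat.pos_of_ne_zero hK0
  have hsK : Squarefree K := by rw [← hk]; exact Int.squarefree_natAbs.2 sqf
  have c8K : IsCoprime (8 : ℤ) (K : ℤ) := by
    have : Nat.Coprime 8 K := by
      rw [show (8 : ℕ) = 2 ^ 3 by norm_num]
      exact Nat.Coprime.pow_left 3 (Nat.coprime_two_left.2 ho)
    exact_mod_cast Nat.isCoprime_iff_coprime.2 this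
  obtain ⟨T, u, v, hu8, hv8, hw, hvK, hJ, hT⟩ := res K m m 8 s ho hsK c8K hs
  have hw' : (K : ℤ) ∣ T * v - 8 * u := Int.modEq_iff_dvd.1 hw
  have nT : ∀ l : ℕ, l.Prime → (l : ℤ) ∣ (K : ℤ) → ¬ (l : ℤ) ∣ T ∧ ¬ (l : ℤ) ∣ T - 4 ∧
      ¬ (l : ℤ) ∣ v ∧ ¬ (l : ℤ) ∣ 2 := by
    intro l hl hlK
    have : Fact l.Prime := ⟨hl⟩
    obtain ⟨e1, e2⟩ := hT l hlK
    refine ⟨fun h => ?_, fun h => ?_, fun h => ?_, fun h => ?_⟩
    · rw [leg_zero l h] at e1; omega
    · rw [leg_zero l h] at e2; omega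
    · exact (Nat.prime_iff_prime_int.1 hl).not_isUnit (hvK.isUnit_of_dvd' h hlK)
    · have h8 : (l : ℤ) ∣ 8 := h.trans ⟨4, by norm_num⟩
      exact (Nat.prime_iff_prime_int.1 hl).not_isUnit (c8K.isUnit_of_dvd' h8 hlK)
  have huK : IsCoprime u (K : ℤ) := by
    apply cop_of
    intro l hl h1 h2
    obtain ⟨a1, a2, a3, a4⟩ := nT l hl h2
    have h3 : (l : ℤ) ∣ T * v := by
      have := dvd_add (h2.trans hw') (h1.mul_left 8)
      simpa using this
    rcases (Nat.prime_iff_prime_int.1 hl).dvd_mul.1 h3 with h | h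
    · exact a1 h
    · exact a3 h
  have hvuK : IsCoprime (-2 * u + 1 * v) (K : ℤ) := by
    apply cop_of
    intro l hl h1 h2
    obtain ⟨a1, a2, a3, a4⟩ := nT l hl h2
    have h3 : (l : ℤ) ∣ (T - 4) * v := by
      have h4 := dvd_sub (h2.trans hw') (h1.mul_left 4)
      have h5 : T * v - 8 * u - 4 * (-2 * u + 1 * v) = (T - 4) * v := by ring
      rwa [h5] at h4
    rcases (Nat.prime_iff_prime_int.1 hl).dvd_mul.1 h3 with h | h
    · exact a2 h
    · exact a3 h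
  have du8 : (8 : ℤ) ∣ m - u := Int.modEq_iff_dvd.1 hu8
  have dv8 : (8 : ℤ) ∣ m - v := Int.modEq_iff_dvd.1 hv8
  have hm8 : ∃ c : ℤ, (m : ℤ) * m = 1 + 8 * c := by
    rcases hm with h | h <;> subst h
    · exact ⟨1, by norm_num⟩
    · exact ⟨3, by norm_num⟩
  obtain ⟨c, hc⟩ := hm8
  have cu : IsCoprime u (8 : ℤ) := by
    obtain ⟨d, hd⟩ := du8
    exact ⟨m, d * m - c, by linear_combination (-(m : ℤ)) * hd + hc⟩
  have cv : IsCoprime v (8 : ℤ) := by
    obtain ⟨d, hd⟩ := dv8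
    exact ⟨m, d * m - c, by linear_combination (-(m : ℤ)) * hd + hc⟩
  have cw : IsCoprime (-2 * u + 1 * v) (8 : ℤ) := by
    obtain ⟨d, hd⟩ := du8
    obtain ⟨e, he⟩ := dv8
    exact ⟨-m, -(c + m * e - 2 * m * d), by linear_combination (-2 * (m : ℤ)) * hd +
      (m : ℤ) * he + hc⟩
  obtain ⟨p, q, r, hp, hq, hr, hNp, -, -, hpu, hqv, hrr⟩ := an (-2) 1 u v (8 * K)
    isCoprime_one_right (by norm_num) one_ne_zero (by omega) ⟨4 * K, by ring⟩
    (by push_cast; exact cu.mul_right huK) (by push_cast; exact cv.mul_right hvK)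
    (by push_cast; exact cw.mul_right hvuK) (Or.inr one_pos) N
  have dpu : ((8 * K : ℕ) : ℤ) ∣ u - p := Int.modEq_iff_dvd.1 hpu
  have dqv : ((8 * K : ℕ) : ℤ) ∣ v - q := Int.modEq_iff_dvd.1 hqv
  have d8 : (8 : ℤ) ∣ ((8 * K : ℕ) : ℤ) := ⟨K, by push_cast; ring⟩
  have dK : (K : ℤ) ∣ ((8 * K : ℕ) : ℤ) := ⟨8, by push_cast; ring⟩
  have m1 : p % 8 = m := by
    have h1 := d8.trans dpu
    have h2 := dvd_add h1 du8
    rcases hm with h | h <;> subst h <;> omega
  have m2 : q % 8 = m := by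
    have h1 := d8.trans dqv
    have h2 := dvd_add h1 dv8
    rcases hm with h | h <;> subst h <;> omega
  refine ⟨p, q, r, hNp, ⟨sqf, hp, hq, hr, m1, m2, by rw [hrr]; ring, ?_⟩, ?_⟩
  · intro l Fl hl2 hlk
    have hlK : (l : ℤ) ∣ (K : ℤ) := by
      rw [← hk]
      exact Int.dvd_natAbs.2 hlk
    obtain ⟨e1, e2⟩ := hT l hlK
    obtain ⟨a1, a2, a3, a4⟩ := nT l Fl.out hlK
    have Il : Prime (l : ℤ) := Nat.prime_iff_prime_int.1 Fl.out
    have b1 : (l : ℤ) ∣ u - p := hlK.trans (dK.trans dpu)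
    have b2 : (l : ℤ) ∣ v - q := hlK.trans (dK.trans dqv)
    have b3 : (l : ℤ) ∣ T * v - 8 * u := hlK.trans hw'
    have b4 : (l : ℤ) ∣ T * q - 8 * p := by
      have h : T * (q : ℤ) - 8 * p = (T * v - 8 * u) - T * (v - q) + 8 * (u - p) := by ring
      rw [h]
      exact dvd_add (dvd_sub b3 (b2.mul_left _)) (b1.mul_left _)
    have nq : ¬ (l : ℤ) ∣ q := fun h => a3 (by
      have := dvd_add b2 h
      simpa using this)
    have n22 : ¬ (l : ℤ) ∣ 2 * 2 := fun h => (Il.dvd_mul.1 h).elim a4 a4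
    have n4 : ¬ (l : ℤ) ∣ 2 := a4
    constructor
    · have h1 : legendreSym l (2 * p * q) = legendreSym l ((2 * 2) * (2 * p * q)) := by
        rw [legendreSym.mul l (2 * 2), leg_sq l n4, one_mul]
      have h2 : legendreSym l ((2 * 2) * (2 * p * q)) = legendreSym l (T * (q * q)) := by
        apply leg_congr
        have h : T * ((q : ℤ) * q) - (2 * 2) * (2 * p * q) = (T * q - 8 * p) * q := by ring
        rw [h]
        exact b4.mul_right _
      rw [h1, h2, legendreSym.mul, leg_sq l nq, e1, mul_one]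
    · have h1 : legendreSym l (-(2 * p * r)) = legendreSym l (((2 * 2) * (2 * 2)) * (-(2 * p * r))) := by
        rw [legendreSym.mul l ((2 * 2) * (2 * 2)), leg_sq l n22, one_mul]
      have h2 : legendreSym l (((2 * 2) * (2 * 2)) * (-(2 * p * r))) =
          legendreSym l ((T * (T - 4)) * (q * q)) := by
        apply leg_congr
        have h : (T * (T - 4)) * ((q : ℤ) * q) - ((2 * 2) * (2 * 2)) * (-(2 * p * r)) =
            (T * q - 8 * p) * (T * q - 4 * q + 8 * p) := by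
          rw [hrr]; ring
        rw [h]
        exact b4.mul_right _
      rw [h1, h2, legendreSym.mul, legendreSym.mul, leg_sq l nq, e1, e2]
      norm_num
  · rw [← hJ]
    exact jacobiSym.mod_left' (Int.modEq_iff_dvd.2 (dK.trans dqv))

theorem exs (res : ResStmt) (an : ANStmt) : ExsStmt := by
  constructor
  · intro k sqf ho hpos N
    have hKo : Odd k.natAbs := Int.natAbs_odd.2 ho
    have hkK : k = (k.natAbs : ℤ) := by omega
    rcases Nat.odd_mod_four_iff.1 (Nat.odd_iff.1 hKo) with h4 | h4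
    · obtain ⟨p, q, r, hN, hRS, hJ⟩ := gen res an k k.natAbs rfl sqf hKo 3 (Or.inl rfl) 1
        ⟨Or.inl rfl, fun _ => rfl⟩ N
      refine ⟨p, q, r, hN, hRS, ?_⟩
      intro _
      have hq3 : q % 8 = 3 := hRS.mq
      rw [hkK, jacobiSym.legendreSym.to_jacobiSym, ← hJ]
      exact (jacobiSym.quadratic_reciprocity_one_mod_four h4 (Nat.odd_iff.2 (by omega)))
    · obtain ⟨p, q, r, hN, hRS, hJ⟩ := gen res an k k.natAbs rfl sqf hKo 3 (Or.inl rfl) (-1)
        ⟨Or.inr rfl, fun h => by omega⟩ N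
      refine ⟨p, q, r, hN, hRS, ?_⟩
      intro _
      have hq3 : q % 8 = 3 := hRS.mq
      rw [hkK, jacobiSym.legendreSym.to_jacobiSym,
        jacobiSym.quadratic_reciprocity_three_mod_four h4 (by omega), hJ]
      norm_num
  · intro k sqf ho hneg hk1 N
    have hKo : Odd k.natAbs := Int.natAbs_odd.2 ho
    have hkK : k = -1 * (k.natAbs : ℤ) := by omega
    obtain ⟨p, q, r, hN, hRS, hJ⟩ := gen res an k k.natAbs rfl sqf hKo 5 (Or.inr rfl) (-1)
      ⟨Or.inr rfl, fun h => by omega⟩ N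
    refine ⟨p, q, r, hN, hRS, ?_⟩
    intro _
    have hq5 : q % 8 = 5 := hRS.mq
    have q2 : q ≠ 2 := by omega
    have h1 : legendreSym q (-1) = 1 := by
      rw [legendreSym.at_neg_one q2, ZMod.χ₄_nat_one_mod_four (by omega)]
    rw [hkK, legendreSym.mul, h1, one_mul, jacobiSym.legendreSym.to_jacobiSym, ← hJ]
    exact jacobiSym.quadratic_reciprocity_one_mod_four' hKo (by omega)

end Pool.Agent.G02.H37
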